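import Pool.Agent.Q283.LQ.Stm

/-!
# Project LQ (helper283): job NEST, equidistribution of the tables
-/

set_option autoImplicit false

namespace Pool.Agent.Q53.LQ2.NEST

open NumberField IsDedekindDomain Filter Topology Pool.Agent.Q283.LQ

variable {F : Type} [Field F] [NumberField F]

theorem inf_primes (F : Type) [Field F] [NumberField F] : Infinite (HeightOneSpectrum (𝓞 F)) := by
  by_contra hfin
  rw [not_infinite_iff_finite] at hfin
  obtain ⟨B, hB⟩ := (Set.finite_range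
    (fun v : HeightOneSpectrum (𝓞 F) => Ideal.absNorm v.asIdeal)).bddAbove
  obtain ⟨p, hpB, hp⟩ := Nat.exists_infinite_primes (B + 1)
  have hpK : ((p : ℕ) : 𝓞 F) ≠ 0 := by exact_mod_cast hp.ne_zero
  have hnu : ¬ IsUnit ((p : ℕ) : 𝓞 F) := by
    intro hu
    have h1 : IsUnit (Algebra.norm ℤ ((p : ℕ) : 𝓞 F)) := hu.map (Algebra.norm ℤ)
    have h2 : Algebra.norm ℤ ((p : ℕ) : 𝓞 F) = (p : ℤ) ^ Module.finrank ℤ (𝓞 F) := by
      have := Algebra.norm_algebraMap (S := 𝓞 F) (p : ℤ)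
      simpa using this
    rw [h2] at h1
    have h3 : Module.finrank ℤ (𝓞 F) ≠ 0 := by
      rw [RingOfIntegers.rank]
      exact Module.finrank_pos.ne'
    have h4 := (isUnit_pow_iff h3).1 h1
    have h5 := (Nat.prime_iff_prime_int.1 hp).not_isUnit
    exact h5 h4
  obtain ⟨m, hm, hle⟩ := Ideal.exists_le_maximal (Ideal.span {((p : ℕ) : 𝓞 F)})
    (by rwa [Ne, Ideal.span_singleton_eq_top])
  have hpm : ((p : ℕ) : 𝓞 F) ∈ m := hle (Ideal.mem_span_singleton_self _)
  have hm0 : m ≠ ⊥ := by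
    intro h0
    rw [h0, Ideal.mem_bot] at hpm
    exact hpK hpm
  let v : HeightOneSpectrum (𝓞 F) := ⟨m, hm.isPrime, hm0⟩
  have h1 : Ideal.absNorm m ≤ B := hB ⟨v, rfl⟩
  have h2 : ¬ p ∣ Ideal.absNorm m := by
    intro h
    have h3 := Nat.le_of_dvd (Nat.pos_of_ne_zero (by
      rw [Ne, Ideal.absNorm_eq_zero_iff]
      exact hm0)) h
    omega
  have h3 : IsCoprime ((p : ℕ) : ℤ) ((Ideal.absNorm m : ℕ) : ℤ) := by
    rw [Nat.isCoprime_iff_coprime]
    exact (Nat.Prime.coprime_iff_not_dvd hp).2 h2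
  obtain ⟨u, w, huw⟩ := h3
  apply hm.ne_top
  rw [Ideal.eq_top_iff_one]
  have h4 : (1 : 𝓞 F) = (u : 𝓞 F) * ((p : ℕ) : 𝓞 F) + (w : 𝓞 F) * ((Ideal.absNorm m : ℕ) : 𝓞 F) := by
    exact_mod_cast (congrArg (fun z : ℤ => (z : 𝓞 F)) huw).symm
  rw [h4]
  exact m.add_mem (m.mul_mem_left _ hpm) (m.mul_mem_left _ (Ideal.absNorm_mem m))

theorem fin_norm (x : ℕ) :
    {v : HeightOneSpectrum (𝓞 F) | Ideal.absNorm v.asIdeal ≤ x}.Finite := by
  refine Set.Finite.preimage (f := fun v : HeightOneSpectrum (𝓞 F) => v.asIdeal) ?_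
    (Ideal.finite_setOfPred_absNorm_le (S := 𝓞 F) x)
  intro a _ b _ h
  exact HeightOneSpectrum.ext h

theorem fin_dvd {n : ℕ} (hn : n ≠ 0) :
    {v : HeightOneSpectrum (𝓞 F) | (n : 𝓞 F) ∈ v.asIdeal}.Finite := by
  have hI : Ideal.span {(n : 𝓞 F)} ≠ 0 := by
    rw [Ideal.zero_eq_bot, Ne, Ideal.span_singleton_eq_bot]
    exact_mod_cast hn
  refine (Ideal.finite_factors hI).subset ?_
  intro v hv
  exact (Ideal.dvd_span_singleton).2 hv

theorem fin_sm (y : ℕ) : {v : HeightOneSpectrum (𝓞 F) | Sm y v}.Finite := by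
  refine (fin_dvd (F := F) (Nat.factorial_ne_zero y)).subset ?_
  rintro v ⟨l, hl, hly, hlv⟩
  obtain ⟨m, hm⟩ := Nat.dvd_factorial hl.pos hly
  show ((y.factorial : ℕ) : 𝓞 F) ∈ v.asIdeal
  rw [hm, Nat.cast_mul]
  exact v.asIdeal.mul_mem_right _ hlv

theorem fin_ap (q : HeightOneSpectrum (𝓞 F)) :
    {v : HeightOneSpectrum (𝓞 F) | ¬ (Ap v q ∧ Ap q v)}.Finite := by
  have h0 : Ideal.absNorm q.asIdeal ≠ 0 := by
    rw [Ne, Ideal.absNorm_eq_zero_iff]
    exact q.ne_bot
  refine (fin_dvd (F := F) h0).subset ?_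
  intro v hv
  have h1 : ∃ l : ℕ, l.Prime ∧ (l : 𝓞 F) ∈ v.asIdeal ∧ (l : 𝓞 F) ∈ q.asIdeal := by
    by_contra hcon
    push Not at hcon
    exact hv ⟨fun l hl h => hcon l hl h, fun l hl h h' => hcon l hl h' h⟩
  obtain ⟨l, hl, hlv, hlq⟩ := h1
  have h2 : l ∣ Ideal.absNorm q.asIdeal := by
    by_contra hnd
    have h3 : IsCoprime ((l : ℕ) : ℤ) ((Ideal.absNorm q.asIdeal : ℕ) : ℤ) := by
      rw [Nat.isCoprime_iff_coprime]
      exact (Nat.Prime.coprime_iff_not_dvd hl).2 hnd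
    obtain ⟨u, w, huw⟩ := h3
    apply q.isPrime.ne_top
    rw [Ideal.eq_top_iff_one]
    have h4 : (1 : 𝓞 F) = (u : 𝓞 F) * ((l : ℕ) : 𝓞 F) +
        (w : 𝓞 F) * ((Ideal.absNorm q.asIdeal : ℕ) : 𝓞 F) := by
      exact_mod_cast (congrArg (fun z : ℤ => (z : 𝓞 F)) huw).symm
    rw [h4]
    exact q.asIdeal.add_mem (q.asIdeal.mul_mem_left _ hlq)
      (q.asIdeal.mul_mem_left _ (Ideal.absNorm_mem _))
  obtain ⟨m, hm⟩ := h2
  show ((Ideal.absNorm q.asIdeal : ℕ) : 𝓞 F) ∈ v.asIdeal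
  rw [hm, Nat.cast_mul]
  exact v.asIdeal.mul_mem_right _ hlv

/-! ## Counting -/

/-- the primes of norm `≤ x` with the property `P` -/
abbrev Cs (P : HeightOneSpectrum (𝓞 F) → Prop) (x : ℕ) : Set (HeightOneSpectrum (𝓞 F)) :=
  {v | Ideal.absNorm v.asIdeal ≤ x ∧ P v}

/-- the number of the primes of norm `≤ x` -/
noncomputable abbrev Nm (F : Type) [Field F] [NumberField F] (x : ℕ) : ℝ :=
  ({v : HeightOneSpectrum (𝓞 F) | Ideal.absNorm v.asIdeal ≤ x}.ncard : ℝ)

theorem fin_Cs (P : HeightOneSpectrum (𝓞 F) → Prop) (x : ℕ) : (Cs P x).Finite :=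
  (fin_norm x).subset fun _ h => h.1

theorem tend_top (F : Type) [Field F] [NumberField F] : Tendsto (Nm F) atTop atTop := by
  rw [tendsto_atTop]
  intro b
  have := inf_primes F
  obtain ⟨n, hn⟩ := exists_nat_ge b
  obtain ⟨s, hs⟩ := Infinite.exists_subset_card_eq (HeightOneSpectrum (𝓞 F)) n
  filter_upwards [eventually_ge_atTop (s.sup fun v => Ideal.absNorm v.asIdeal)] with x hx
  refine hn.trans ?_
  have h1 : n ≤ {v : HeightOneSpectrum (𝓞 F) | Ideal.absNorm v.asIdeal ≤ x}.ncard := by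
    rw [← hs, ← Set.ncard_coe_finset s]
    refine Set.ncard_le_ncard ?_ (fin_norm x)
    intro v hv
    exact (Finset.le_sup (f := fun v : HeightOneSpectrum (𝓞 F) => Ideal.absNorm v.asIdeal)
      (Finset.mem_coe.1 hv)).trans hx
  exact_mod_cast h1

theorem ncard_le {P Q : HeightOneSpectrum (𝓞 F) → Prop} {T : Set (HeightOneSpectrum (𝓞 F))}
    (hT : T.Finite) (h : ∀ v, v ∉ T → (P v → Q v)) (x : ℕ) :
    ((Cs P x).ncard : ℝ) ≤ (Cs Q x).ncard + T.ncard := by
  have h1 : (Cs P x).ncard ≤ (Cs Q x ∪ T).ncard := by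
    refine Set.ncard_le_ncard ?_ ((fin_Cs Q x).union hT)
    intro v hv
    by_cases hvT : v ∈ T
    · exact Or.inr hvT
    · exact Or.inl ⟨hv.1, h v hvT hv.2⟩
  have h2 := Set.ncard_union_le (Cs Q x) T
  exact_mod_cast h1.trans h2

theorem ratio_congr {P Q : HeightOneSpectrum (𝓞 F) → Prop} {T : Set (HeightOneSpectrum (𝓞 F))}
    (hT : T.Finite) (h : ∀ v, v ∉ T → (P v ↔ Q v)) {L : ℝ}
    (hP : Tendsto (fun x : ℕ => ((Cs P x).ncard : ℝ) / Nm F x) atTop (𝓝 L)) :
    Tendsto (fun x : ℕ => ((Cs Q x).ncard : ℝ) / Nm F x) atTop (𝓝 L) := by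
  refine tendsto_of_tendsto_of_dist hP ?_
  refine squeeze_zero (g := fun x => (T.ncard : ℝ) / Nm F x) (fun x => dist_nonneg) ?_ ?_
  · intro x
    have h1 := ncard_le hT (fun v hv => (h v hv).1) x
    have h2 := ncard_le hT (fun v hv => (h v hv).2) x
    have h0 : (0 : ℝ) ≤ Nm F x := Nat.cast_nonneg _
    rw [Real.dist_eq, ← sub_div, abs_div, abs_of_nonneg h0]
    refine div_le_div_of_nonneg_right ?_ h0
    rw [abs_le]
    constructor <;> linarith
  · exact (tend_top F).const_div_atTop _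

/-! ## The box -/

/-- `v` may be added to the tuple `q` -/
def W (y : ℕ) {k : ℕ} (q : Fin k → HeightOneSpectrum (𝓞 F)) (v : HeightOneSpectrum (𝓞 F)) : Prop :=
  ¬ Sm y v ∧ ∀ i, q i ≠ v

theorem mem_box_snoc {y k : ℕ} {X : Fin k → ℕ} {x : ℕ} {q : Fin k → HeightOneSpectrum (𝓞 F)}
    {v : HeightOneSpectrum (𝓞 F)} :
    (Fin.snoc (α := fun _ => HeightOneSpectrum (𝓞 F)) q v : Fin (k + 1) → _) ∈
        (Box y (Fin.snoc (α := fun _ => ℕ) X x) : Set (Fin (k + 1) → HeightOneSpectrum (𝓞 F))) ↔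
      q ∈ (Box y X : Set (Fin k → HeightOneSpectrum (𝓞 F))) ∧
        Ideal.absNorm v.asIdeal ≤ x ∧ W y q v := by
  constructor
  · rintro ⟨h1, h2⟩
    refine ⟨⟨?_, ?_⟩, ?_, ?_, ?_⟩
    · intro i j hij
      have := @h1 i.castSucc j.castSucc (by rw [Fin.snoc_castSucc, Fin.snoc_castSucc]; exact hij)
      exact Fin.castSucc_injective _ this
    · intro i
      have := h2 i.castSucc
      rwa [Fin.snoc_castSucc, Fin.snoc_castSucc] at this
    · have := (h2 (Fin.last k)).2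
      rwa [Fin.snoc_last, Fin.snoc_last] at this
    · have := (h2 (Fin.last k)).1
      rwa [Fin.snoc_last] at this
    · intro i hi
      have := @h1 i.castSucc (Fin.last k) (by rw [Fin.snoc_castSucc, Fin.snoc_last]; exact hi)
      exact absurd this (Fin.castSucc_lt_last i).ne
  · rintro ⟨⟨h1, h2⟩, h3, h4, h5⟩
    refine ⟨Fin.snoc_injective_of_injective h1 ?_, ?_⟩
    · rintro ⟨i, hi⟩
      exact h5 i hi
    · intro i
      refine Fin.lastCases ?_ ?_ i
      · rw [Fin.snoc_last, Fin.snoc_last]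
        exact ⟨h4, h3⟩
      · intro j
        rw [Fin.snoc_castSucc, Fin.snoc_castSucc]
        exact h2 j

open Classical in
theorem box_sum {y k : ℕ} {X : Fin k → ℕ}
    (hB : (Box y X : Set (Fin k → HeightOneSpectrum (𝓞 F))).Finite) (x : ℕ)
    (R : (Fin (k + 1) → HeightOneSpectrum (𝓞 F)) → Prop) :
    {q' ∈ (Box y (Fin.snoc (α := fun _ => ℕ) X x) : Set (Fin (k + 1) → HeightOneSpectrum (𝓞 F))) |
        R q'}.Finite ∧
    {q' ∈ (Box y (Fin.snoc (α := fun _ => ℕ) X x) : Set (Fin (k + 1) → HeightOneSpectrum (𝓞 F))) |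
        R q'}.ncard =
      ∑ q ∈ hB.toFinset,
        (Cs (fun v => W y q v ∧ R (Fin.snoc (α := fun _ => HeightOneSpectrum (𝓞 F)) q v)) x).ncard := by
  set C : (Fin k → HeightOneSpectrum (𝓞 F)) → Finset (HeightOneSpectrum (𝓞 F)) := fun q =>
    (fin_Cs (fun v => W y q v ∧ R (Fin.snoc (α := fun _ => HeightOneSpectrum (𝓞 F)) q v)) x).toFinset
    with hC
  set φ : (Σ _ : Fin k → HeightOneSpectrum (𝓞 F), HeightOneSpectrum (𝓞 F)) →
      (Fin (k + 1) → HeightOneSpectrum (𝓞 F)) :=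
    fun p => Fin.snoc (α := fun _ => HeightOneSpectrum (𝓞 F)) p.1 p.2 with hφ
  have hinj : Function.Injective φ := by
    rintro ⟨q, v⟩ ⟨q', v'⟩ h
    have h1 := Fin.snoc_injective2 h
    obtain ⟨h2, h3⟩ := h1
    subst h2
    subst h3
    rfl
  have hset : {q' ∈ (Box y (Fin.snoc (α := fun _ => ℕ) X x) :
      Set (Fin (k + 1) → HeightOneSpectrum (𝓞 F))) | R q'} =
      (((hB.toFinset.sigma C).image φ : Finset _) : Set _) := by
    ext q'
    rw [Finset.coe_image, Set.mem_image]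
    constructor
    · rintro ⟨h1, h2⟩
      have e : Fin.snoc (α := fun _ => HeightOneSpectrum (𝓞 F)) (Fin.init q') (q' (Fin.last k)) = q' :=
        Fin.snoc_init_self q'
      rw [← e] at h1 h2
      rw [mem_box_snoc] at h1
      refine ⟨⟨Fin.init q', q' (Fin.last k)⟩, ?_, e⟩
      rw [Finset.mem_coe, Finset.mem_sigma]
      refine ⟨(Set.Finite.mem_toFinset hB).2 h1.1, ?_⟩
      exact (Set.Finite.mem_toFinset _).2 ⟨h1.2.1, h1.2.2, h2⟩
    · rintro ⟨⟨q, v⟩, h1, rfl⟩
      rw [Finset.mem_coe, Finset.mem_sigma] at h1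
      have h2 := (Set.Finite.mem_toFinset hB).1 h1.1
      have h3 := (Set.Finite.mem_toFinset _).1 h1.2
      exact ⟨mem_box_snoc.2 ⟨h2, h3.1, h3.2.1⟩, h3.2.2⟩
  rw [hset]
  refine ⟨Finset.finite_toSet _, ?_⟩
  rw [Set.ncard_coe_finset, Finset.card_image_of_injective _ hinj, Finset.card_sigma]
  refine Finset.sum_congr rfl fun q _ => ?_
  rw [Set.ncard_eq_toFinset_card _ (fin_Cs _ x)]

/-! ## Parities of valuations -/

open Classical in
/-- the parity of the valuation -/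
noncomputable def pr (v : HeightOneSpectrum (𝓞 F)) (a : F) : ZMod 2 := if Od v a then 1 else 0

theorem pr_mul (hB : S_BAS) (v : HeightOneSpectrum (𝓞 F)) {a b : F} (ha : a ≠ 0) (hb : b ≠ 0) :
    pr v (a * b) = pr v a + pr v b := by
  have h := (hB F v).2.2.2.1 a b ha hb
  unfold pr
  by_cases h1 : Od v a <;> by_cases h2 : Od v b
  · rw [if_neg (by rw [h]; tauto), if_pos h1, if_pos h2]
    decide
  · rw [if_pos (by rw [h]; tauto), if_pos h1, if_neg h2]
    decide
  · rw [if_pos (by rw [h]; tauto), if_neg h1, if_pos h2]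
    decide
  · rw [if_neg (by rw [h]; tauto), if_neg h1, if_neg h2]
    decide

theorem add_self2 (z : ZMod 2) : z + z = 0 := by
  revert z
  decide

theorem pr_one (hB : S_BAS) (v : HeightOneSpectrum (𝓞 F)) : pr v (1 : F) = 0 := by
  have h := pr_mul hB v (one_ne_zero (α := F)) one_ne_zero
  rw [mul_one, add_self2] at h
  exact h

theorem pr_prod (hB : S_BAS) (v : HeightOneSpectrum (𝓞 F)) {ι : Type} (s : Finset ι) (g : ι → F)
    (hg : ∀ i, g i ≠ 0) : pr v (∏ i ∈ s, g i) = ∑ i ∈ s, pr v (g i) := by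
  classical
  induction s using Finset.induction_on with
  | empty => rw [Finset.prod_empty, Finset.sum_empty, pr_one hB]
  | insert i s hi ih =>
    rw [Finset.prod_insert hi, Finset.sum_insert hi,
      pr_mul hB v (hg i) (Finset.prod_ne_zero_iff.2 fun j _ => hg j), ih]

theorem pr_mon (hB : S_BAS) (v : HeightOneSpectrum (𝓞 F)) {m : ℕ} {a : Fin m → F}
    (ha : ∀ i, a i ≠ 0) (c : Fin m → ZMod 2) : pr v (mon a c) = ∑ i, c i * pr v (a i) := by
  unfold mon
  rw [pr_prod hB v _ _ fun i => pow_ne_zero _ (ha i)]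
  refine Finset.sum_congr rfl fun i _ => ?_
  have h3 : c i = 0 ∨ c i = 1 := by
    generalize c i = z
    revert z
    decide
  rcases h3 with h3 | h3
  · rw [h3, ZMod.val_zero, pow_zero, zero_mul, pr_one hB]
  · rw [h3, ZMod.val_one, pow_one, one_mul]

theorem indep (hB : S_BAS) {y f : ℕ} {u r : Fin f → F} {π : HeightOneSpectrum (𝓞 F) → F}
    {g : (Fin f → ZMod 2) → (Fin f → ZMod 2) → ZMod 2} (hb : Base y f u r π g) {k : ℕ}
    {q : Fin k → HeightOneSpectrum (𝓞 F)} (hq : Function.Injective q) (hS : ∀ i, ¬ Sm y (q i)) :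
    (∀ i, (Fin.append u fun i => π (q i)) i ≠ 0) ∧
    ∀ c : Fin (f + k) → ZMod 2, IsSquare (mon (Fin.append u fun i => π (q i)) c) → c = 0 := by
  have hne : ∀ i, (Fin.append u fun i => π (q i)) i ≠ 0 := by
    intro i
    refine Fin.addCases ?_ ?_ i
    · intro j
      rw [Fin.append_left]
      exact hb.ue j
    · intro j
      rw [Fin.append_right]
      exact (hb.po _ (hS j)).1
  refine ⟨hne, ?_⟩
  intro c hc
  have hmon : mon (Fin.append u fun i => π (q i)) c ≠ 0 := by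
    unfold mon
    exact Finset.prod_ne_zero_iff.2 fun i _ => pow_ne_zero _ (hne i)
  obtain ⟨s, hs⟩ := hc
  have hs0 : s ≠ 0 := by
    rintro rfl
    rw [mul_zero] at hs
    exact hmon hs
  have h1 : ∀ j : Fin k, c (Fin.natAdd f j) = 0 := by
    intro j
    have h2 := pr_mon hB (q j) hne c
    rw [hs, pr_mul hB _ hs0 hs0, add_self2, Fin.sum_univ_add] at h2
    have h3 : ∀ l : Fin f, pr (q j) ((Fin.append u fun i => π (q i)) (Fin.castAdd k l)) = 0 := by
      intro l
      rw [Fin.append_left]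
      exact if_neg (hb.uo l _ (hS j))
    have h4 : ∀ i : Fin k, pr (q j) ((Fin.append u fun i => π (q i)) (Fin.natAdd f i)) =
        if j = i then 1 else 0 := by
      intro i
      rw [Fin.append_right]
      by_cases hij : j = i
      · rw [if_pos hij, hij]
        exact if_pos (((hb.po _ (hS i)).2 _ (hS i)).2 rfl)
      · rw [if_neg hij]
        exact if_neg fun h => hij (hq (((hb.po _ (hS i)).2 _ (hS j)).1 h))
    simp only [h3, h4, mul_zero, Finset.sum_const_zero, zero_add, mul_ite, mul_one,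
      Finset.sum_ite_eq, Finset.mem_univ, if_true] at h2
    exact h2.symm
  have h2 : mon (Fin.append u fun i => π (q i)) c = mon u fun l => c (Fin.castAdd k l) := by
    unfold mon
    rw [Fin.prod_univ_add]
    have h3 : (∏ i : Fin k, (Fin.append u fun i => π (q i)) (Fin.natAdd f i) ^
        (c (Fin.natAdd f i)).val) = 1 := by
      refine Finset.prod_eq_one fun i _ => ?_
      rw [h1 i, ZMod.val_zero, pow_zero]
    rw [h3, mul_one]
    refine Finset.prod_congr rfl fun l _ => ?_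
    rw [Fin.append_left]
  have h3 := hb.ind (fun l => c (Fin.castAdd k l)) ⟨s, by rw [← h2, hs]⟩
  funext i
  refine Fin.addCases ?_ ?_ i
  · intro l
    exact congrFun h3 l
  · intro j
    exact h1 j

/-! ## Tables -/

/-- the table of the first `k` primes -/
def res {f k : ℕ} (τ : Tab f (k + 1)) : Tab f k :=
  (fun i => τ.1 i.castSucc,
    fun p => τ.2 ⟨(p.1.1.castSucc, p.1.2.castSucc), Fin.castSucc_lt_castSucc_iff.2 p.2⟩)

theorem tb_snoc {f k : ℕ} {u : Fin f → F} {π : HeightOneSpectrum (𝓞 F) → F} {τ : Tab f (k + 1)}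
    {q : Fin k → HeightOneSpectrum (𝓞 F)} {v : HeightOneSpectrum (𝓞 F)} :
    Tb u π τ (Fin.snoc (α := fun _ => HeightOneSpectrum (𝓞 F)) q v) ↔
      Tb u π (res τ) q ∧ ((∀ l, sb v (u l) = τ.1 (Fin.last k) l) ∧
        ∀ i : Fin k, sb v (π (q i)) = τ.2 ⟨(i.castSucc, Fin.last k), Fin.castSucc_lt_last i⟩) ∧
        ∀ i, Ap v (q i) ∧ Ap (q i) v := by
  constructor
  · rintro ⟨h1, h2, h3⟩
    refine ⟨⟨?_, ?_, ?_⟩, ⟨?_, ?_⟩, ?_⟩
    · intro j l
      have := h1 j.castSucc l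
      rwa [Fin.snoc_castSucc] at this
    · rintro ⟨⟨i, j⟩, hij⟩
      have := h2 ⟨(i.castSucc, j.castSucc), Fin.castSucc_lt_castSucc_iff.2 hij⟩
      simp only [Fin.snoc_castSucc] at this
      exact this
    · intro i j hij
      have := h3 i.castSucc j.castSucc (fun h => hij (Fin.castSucc_injective _ h))
      rwa [Fin.snoc_castSucc, Fin.snoc_castSucc] at this
    · intro l
      have := h1 (Fin.last k) l
      rwa [Fin.snoc_last] at this
    · intro i
      have := h2 ⟨(i.castSucc, Fin.last k), Fin.castSucc_lt_last i⟩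
      simp only [Fin.snoc_castSucc, Fin.snoc_last] at this
      exact this
    · intro i
      constructor
      · have := h3 (Fin.last k) i.castSucc (Fin.castSucc_lt_last i).ne'
        rwa [Fin.snoc_castSucc, Fin.snoc_last] at this
      · have := h3 i.castSucc (Fin.last k) (Fin.castSucc_lt_last i).ne
        rwa [Fin.snoc_castSucc, Fin.snoc_last] at this
  · rintro ⟨⟨h1, h2, h3⟩, ⟨h4, h5⟩, h6⟩
    refine ⟨?_, ?_, ?_⟩
    · intro j
      refine Fin.lastCases ?_ ?_ j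
      · intro l
        rw [Fin.snoc_last]
        exact h4 l
      · intro i l
        rw [Fin.snoc_castSucc]
        exact h1 i l
    · rintro ⟨⟨i, j⟩, hij⟩
      revert hij
      refine Fin.lastCases ?_ ?_ j
      · refine Fin.lastCases ?_ ?_ i
        · intro hij
          exact absurd hij (lt_irrefl _)
        · intro i' hij
          simp only [Fin.snoc_castSucc, Fin.snoc_last]
          exact h5 i'
      · intro j'
        refine Fin.lastCases ?_ ?_ i
        · intro hij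
          exact absurd hij (not_lt.2 (Fin.castSucc_lt_last j').le)
        · intro i' hij
          simp only [Fin.snoc_castSucc]
          exact h2 ⟨(i', j'), Fin.castSucc_lt_castSucc_iff.1 hij⟩
    · intro i j
      refine Fin.lastCases ?_ ?_ i
      · refine Fin.lastCases ?_ ?_ j
        · intro hij
          exact absurd rfl hij
        · intro j' _
          rw [Fin.snoc_castSucc, Fin.snoc_last]
          exact (h6 j').1
      · intro i'
        refine Fin.lastCases ?_ ?_ j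
        · intro _
          rw [Fin.snoc_castSucc, Fin.snoc_last]
          exact (h6 i').2
        · intro j' hij
          rw [Fin.snoc_castSucc, Fin.snoc_castSucc]
          exact h3 i' j' (fun h => hij (by rw [h]))

/-! ## Limits -/

theorem lim_W (y : ℕ) {k : ℕ} (q : Fin k → HeightOneSpectrum (𝓞 F)) :
    Tendsto (fun x : ℕ => ((Cs (fun v => W y q v ∧ True) x).ncard : ℝ) / Nm F x) atTop (𝓝 1) := by
  refine ratio_congr (P := fun _ => True) (T := {v | Sm y v} ∪ Set.range q)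
    ((fin_sm y).union (Set.finite_range q)) ?_ ?_
  · intro v hv
    refine ⟨fun _ => ⟨⟨fun h => hv (Or.inl h), fun i h => hv (Or.inr ⟨i, h⟩)⟩, trivial⟩,
      fun _ => trivial⟩
  · refine tendsto_const_nhds.congr' ?_
    filter_upwards [(tend_top F).eventually_gt_atTop 0] with x hx
    have h1 : Cs (fun _ : HeightOneSpectrum (𝓞 F) => True) x =
        {v : HeightOneSpectrum (𝓞 F) | Ideal.absNorm v.asIdeal ≤ x} := by
      ext v
      exact ⟨fun h => h.1, fun h => ⟨h, trivial⟩⟩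
    rw [h1]
    exact (div_self hx.ne').symm

theorem lim_Tb (hCH : S_CHEB) (hB : S_BAS) {y f : ℕ} {u r : Fin f → F}
    {π : HeightOneSpectrum (𝓞 F) → F} {g : (Fin f → ZMod 2) → (Fin f → ZMod 2) → ZMod 2}
    (hb : Base y f u r π g) {k : ℕ} {q : Fin k → HeightOneSpectrum (𝓞 F)}
    (hq : Function.Injective q) (hS : ∀ i, ¬ Sm y (q i)) {τ : Tab f (k + 1)}
    (hτ : Tb u π (res τ) q) :
    Tendsto (fun x : ℕ => ((Cs (fun v => W y q v ∧
      Tb u π τ (Fin.snoc (α := fun _ => HeightOneSpectrum (𝓞 F)) q v)) x).ncard : ℝ) / Nm F x)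
      atTop (𝓝 (1 / 2 ^ (f + k))) := by
  obtain ⟨h1, h2⟩ := indep hB hb hq hS
  have h3 := hCH F (f + k) _ h1 h2 (Fin.append (τ.1 (Fin.last k)) fun i : Fin k =>
    τ.2 ⟨(i.castSucc, Fin.last k), Fin.castSucc_lt_last i⟩)
  refine ratio_congr (T := ({v | Sm y v} ∪ Set.range q) ∪ ⋃ i, {v | ¬ (Ap v (q i) ∧ Ap (q i) v)})
    (((fin_sm y).union (Set.finite_range q)).union (Set.finite_iUnion fun i => fin_ap (q i)))
    ?_ h3
  intro v hv
  have h4 : (∀ i, sb v ((Fin.append u fun i => π (q i)) i) =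
      (Fin.append (τ.1 (Fin.last k)) fun i : Fin k =>
        τ.2 ⟨(i.castSucc, Fin.last k), Fin.castSucc_lt_last i⟩) i) ↔
      (∀ l, sb v (u l) = τ.1 (Fin.last k) l) ∧
        ∀ i : Fin k, sb v (π (q i)) = τ.2 ⟨(i.castSucc, Fin.last k), Fin.castSucc_lt_last i⟩ := by
    constructor
    · intro h
      refine ⟨fun l => ?_, fun i => ?_⟩
      · have := h (Fin.castAdd k l)
        rwa [Fin.append_left, Fin.append_left] at this
      · have := h (Fin.natAdd f i)
        rwa [Fin.append_right, Fin.append_right] at this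
    · rintro ⟨h, h'⟩ i
      refine Fin.addCases ?_ ?_ i
      · intro l
        rw [Fin.append_left, Fin.append_left]
        exact h l
      · intro i
        rw [Fin.append_right, Fin.append_right]
        exact h' i
  have h5 : ∀ i, Ap v (q i) ∧ Ap (q i) v := by
    intro i
    by_contra hcon
    exact hv (Or.inr (Set.mem_iUnion.2 ⟨i, hcon⟩))
  have h6 : W y q v := ⟨fun h => hv (Or.inl (Or.inl h)), fun i h => hv (Or.inl (Or.inr ⟨i, h⟩))⟩
  rw [tb_snoc, h4]
  constructor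
  · intro h
    exact ⟨h6, hτ, h, h5⟩
  · intro h
    exact h.2.2.1

theorem lim_not {y f : ℕ} {u : Fin f → F} {π : HeightOneSpectrum (𝓞 F) → F} {k : ℕ}
    {q : Fin k → HeightOneSpectrum (𝓞 F)} {τ : Tab f (k + 1)} (hτ : ¬ Tb u π (res τ) q) :
    Tendsto (fun x : ℕ => ((Cs (fun v => W y q v ∧
      Tb u π τ (Fin.snoc (α := fun _ => HeightOneSpectrum (𝓞 F)) q v)) x).ncard : ℝ) / Nm F x)
      atTop (𝓝 0) := by
  have h1 : ∀ x, (Cs (fun v => W y q v ∧
      Tb u π τ (Fin.snoc (α := fun _ => HeightOneSpectrum (𝓞 F)) q v)) x) = ∅ := by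
    intro x
    refine Set.eq_empty_of_forall_notMem fun v hv => ?_
    have h2 := hv.2.2
    rw [tb_snoc] at h2
    exact hτ h2.1
  simp only [h1, Set.ncard_empty, Nat.cast_zero, zero_div]
  exact tendsto_const_nhds

theorem alg (A B : ℝ) (m n : ℕ) :
    A * (1 / 2 ^ n) / B - 1 / 2 ^ (m + n) = (A / B - 1 / 2 ^ m) * (1 / 2 ^ n) := by
  rw [pow_add]
  ring

theorem nest_mono : ∀ (k : ℕ) {P Q : (Fin k → ℕ) → Prop}, (∀ X, P X → Q X) → Nest k P → Nest k Q
  | 0, _, _, h, hP => h _ hP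
  | k + 1, _, _, h, hP => nest_mono k (fun _ hX => hX.mono fun _ hx => h _ hx) hP

open Classical in
theorem step (hCH : S_CHEB) (hB : S_BAS) {y f : ℕ} {u r : Fin f → F}
    {π : HeightOneSpectrum (𝓞 F) → F} {g : (Fin f → ZMod 2) → (Fin f → ZMod 2) → ZMod 2}
    (hb : Base y f u r π g) {k : ℕ} (τ : Tab f (k + 1)) {ε : ℝ} (hε : 0 < ε) {X : Fin k → ℕ}
    (h1 : (Box y X : Set (Fin k → HeightOneSpectrum (𝓞 F))).Finite)
    (h2 : 0 < ((Box y X : Set (Fin k → HeightOneSpectrum (𝓞 F))).ncard : ℝ))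
    (h3 : |({q ∈ (Box y X : Set (Fin k → HeightOneSpectrum (𝓞 F))) | Tb u π (res τ) q}.ncard : ℝ) /
      ((Box y X : Set (Fin k → HeightOneSpectrum (𝓞 F))).ncard : ℝ) -
        1 / 2 ^ (k * f + k * (k - 1) / 2)| ≤ ε / 2) :
    ∀ᶠ x : ℕ in atTop,
    (Box y (Fin.snoc (α := fun _ => ℕ) X x) :
      Set (Fin (k + 1) → HeightOneSpectrum (𝓞 F))).Finite ∧
    0 < ((Box y (Fin.snoc (α := fun _ => ℕ) X x) :
      Set (Fin (k + 1) → HeightOneSpectrum (𝓞 F))).ncard : ℝ) ∧
    |({q ∈ (Box y (Fin.snoc (α := fun _ => ℕ) X x) :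
      Set (Fin (k + 1) → HeightOneSpectrum (𝓞 F))) | Tb u π τ q}.ncard : ℝ) /
      ((Box y (Fin.snoc (α := fun _ => ℕ) X x) :
      Set (Fin (k + 1) → HeightOneSpectrum (𝓞 F))).ncard : ℝ) -
        1 / 2 ^ ((k + 1) * f + (k + 1) * (k + 1 - 1) / 2)| ≤ ε := by
  set B := h1.toFinset with hBdef
  have hBc : ((Box y X : Set (Fin k → HeightOneSpectrum (𝓞 F))).ncard : ℝ) = (B.card : ℝ) := by
    rw [Set.ncard_eq_toFinset_card _ h1]
  have hBt : ({q ∈ (Box y X : Set (Fin k → HeightOneSpectrum (𝓞 F))) |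
      Tb u π (res τ) q}.ncard : ℝ) = ((B.filter fun q => Tb u π (res τ) q).card : ℝ) := by
    rw [← Set.ncard_coe_finset]
    congr 2
    ext q
    rw [Finset.mem_coe, Finset.mem_filter, hBdef, Set.Finite.mem_toFinset]
    exact Iff.rfl
  have hall : ∀ x, (Box y (Fin.snoc (α := fun _ => ℕ) X x) :
      Set (Fin (k + 1) → HeightOneSpectrum (𝓞 F))) =
      {q' ∈ (Box y (Fin.snoc (α := fun _ => ℕ) X x) :
        Set (Fin (k + 1) → HeightOneSpectrum (𝓞 F))) | True} := by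
    intro x
    ext q
    exact ⟨fun h => ⟨h, trivial⟩, fun h => h.1⟩
  have l1 : Tendsto (fun x : ℕ => ((Box y (Fin.snoc (α := fun _ => ℕ) X x) :
      Set (Fin (k + 1) → HeightOneSpectrum (𝓞 F))).ncard : ℝ) / Nm F x) atTop
      (𝓝 (B.card : ℝ)) := by
    have h4 : ∀ x : ℕ, ((Box y (Fin.snoc (α := fun _ => ℕ) X x) :
        Set (Fin (k + 1) → HeightOneSpectrum (𝓞 F))).ncard : ℝ) / Nm F x =
        ∑ q ∈ B, ((Cs (fun v => W y q v ∧ True) x).ncard : ℝ) / Nm F x := by
      intro x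
      rw [hall x, (box_sum h1 x fun _ => True).2, Nat.cast_sum, Finset.sum_div]
    simp only [h4]
    have h5 := tendsto_finsetSum B fun q (_ : q ∈ B) => lim_W (F := F) y q
    rw [Finset.sum_const, nsmul_eq_mul, mul_one] at h5
    exact h5
  have l2 : Tendsto (fun x : ℕ => ({q ∈ (Box y (Fin.snoc (α := fun _ => ℕ) X x) :
      Set (Fin (k + 1) → HeightOneSpectrum (𝓞 F))) | Tb u π τ q}.ncard : ℝ) / Nm F x) atTop
      (𝓝 (((B.filter fun q => Tb u π (res τ) q).card : ℝ) * (1 / 2 ^ (f + k)))) := by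
    have h4 : ∀ x : ℕ, ({q ∈ (Box y (Fin.snoc (α := fun _ => ℕ) X x) :
        Set (Fin (k + 1) → HeightOneSpectrum (𝓞 F))) | Tb u π τ q}.ncard : ℝ) / Nm F x =
        ∑ q ∈ B, ((Cs (fun v => W y q v ∧
          Tb u π τ (Fin.snoc (α := fun _ => HeightOneSpectrum (𝓞 F)) q v)) x).ncard : ℝ) /
            Nm F x := by
      intro x
      rw [(box_sum h1 x fun q => Tb u π τ q).2, Nat.cast_sum, Finset.sum_div]
    simp only [h4]
    have h6 : ((B.filter fun q => Tb u π (res τ) q).card : ℝ) * (1 / 2 ^ (f + k)) =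
        ∑ q ∈ B, if Tb u π (res τ) q then (1 / 2 ^ (f + k) : ℝ) else 0 := by
      rw [← Finset.sum_filter, Finset.sum_const, nsmul_eq_mul]
    rw [h6]
    refine tendsto_finsetSum B fun q hq => ?_
    rw [hBdef, Set.Finite.mem_toFinset] at hq
    by_cases hT : Tb u π (res τ) q
    · rw [if_pos hT]
      exact lim_Tb hCH hB hb hq.1 (fun i => (hq.2 i).1) hT
    · rw [if_neg hT]
      exact lim_not hT
  rw [hBc] at h2 h3
  rw [hBt] at h3
  have l3 := l2.div l1 h2.ne'
  set L : ℝ := ((B.filter fun q => Tb u π (res τ) q).card : ℝ) * (1 / 2 ^ (f + k)) / (B.card : ℝ)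
    with hL
  have hL2 : |L - 1 / 2 ^ ((k + 1) * f + (k + 1) * (k + 1 - 1) / 2)| ≤ ε / 2 := by
    have e1 : (k + 1) * f + (k + 1) * (k + 1 - 1) / 2 = (k * f + k * (k - 1) / 2) + (f + k) := by
      rw [Nat.triangle_succ]
      ring
    have e2 : L - 1 / 2 ^ ((k + 1) * f + (k + 1) * (k + 1 - 1) / 2) =
        (((B.filter fun q => Tb u π (res τ) q).card : ℝ) / (B.card : ℝ) -
          1 / 2 ^ (k * f + k * (k - 1) / 2)) * (1 / 2 ^ (f + k)) := by
      rw [hL, e1]
      exact alg _ _ _ _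
    rw [e2, abs_mul]
    have h7 : |(1 / 2 ^ (f + k) : ℝ)| ≤ 1 := by
      rw [abs_of_nonneg (by positivity), div_le_one (by positivity)]
      exact one_le_pow₀ (by norm_num)
    calc _ ≤ (ε / 2) * 1 := mul_le_mul h3 h7 (abs_nonneg _) (by positivity)
      _ = ε / 2 := mul_one _
  have h8 := (Metric.tendsto_nhds.1 l3) (ε / 2) (by positivity)
  filter_upwards [h8, l1.eventually_const_lt h2, (tend_top F).eventually_gt_atTop 0]
    with x h9 h10 h11
  refine ⟨?_, ?_, ?_⟩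
  · rw [hall x]
    exact (box_sum h1 x fun _ => True).1
  · by_contra hcon
    have h12 : ((Box y (Fin.snoc (α := fun _ => ℕ) X x) :
      Set (Fin (k + 1) → HeightOneSpectrum (𝓞 F))).ncard : ℝ) = 0 :=
      le_antisymm (not_lt.1 hcon) (Nat.cast_nonneg _)
    rw [h12, zero_div] at h10
    exact lt_irrefl _ h10
  · have h12 : ∀ a b : ℝ, a / Nm F x / (b / Nm F x) = a / b := fun a b =>
      div_div_div_cancel_right₀ h11.ne' a b
    rw [Pi.div_apply, h12, Real.dist_eq] at h9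
    rw [abs_le] at hL2 ⊢
    rw [abs_lt] at h9
    constructor <;> linarith

theorem main (hCH : S_CHEB) (hB : S_BAS) : S_NEST := by
  intro F _ _ y f u r π g hb k
  induction k with
  | zero =>
    intro τ ε hε
    have h1 : (Box y (Fin.elim0 : Fin 0 → ℕ) : Set (Fin 0 → HeightOneSpectrum (𝓞 F))) =
        Set.univ := by
      refine Set.eq_univ_of_forall fun q => ⟨fun i => i.elim0, fun i => i.elim0⟩
    have h2 : {q ∈ (Set.univ : Set (Fin 0 → HeightOneSpectrum (𝓞 F))) | Tb u π τ q} =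
        Set.univ := by
      refine Set.eq_univ_of_forall fun q => ⟨trivial, fun j => j.elim0, ?_, fun i => i.elim0⟩
      rintro ⟨⟨i, _⟩, _⟩
      exact i.elim0
    show (Box y (Fin.elim0 : Fin 0 → ℕ) : Set (Fin 0 → HeightOneSpectrum (𝓞 F))).Finite ∧ _ ∧ _
    rw [h1, h2]
    have h3 : (Set.univ : Set (Fin 0 → HeightOneSpectrum (𝓞 F))).ncard = 1 := by
      rw [Set.ncard_univ, Nat.card_unique]
    refine ⟨Set.toFinite _, ?_, ?_⟩
    · rw [h3]
      norm_num
    · rw [h3]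
      norm_num
      exact hε.le
  | succ k ih =>
    intro τ ε hε
    refine nest_mono k ?_ (ih (res τ) (ε / 2) (by positivity))
    rintro X ⟨h1, h2, h3⟩
    exact step hCH hB hb τ hε h1 h2 h3

end Pool.Agent.Q53.LQ2.NEST
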