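import Pool.Agent.Q283.LQ.Stm

/-!
# Project LQ (helper283): job LA1, saturation of a submodule of `ℤ_2^p`
-/

set_option autoImplicit false

namespace Pool.Agent.Q53.LQ2.LA1

open Module Pool.Agent.Q283.LQ

theorem main : S_LA1 := by
  intro t p r hr
  obtain ⟨n, S⟩ := Submodule.smithNormalForm (Pi.basisFun ℤ_[2] (Fin p))
    (Submodule.span ℤ_[2] (Set.range r))
  have hn : n = t := by
    have h1 := finrank_eq_card_basis S.bN
    have h2 := finrank_eq_card_basis (Basis.span hr)
    rw [Fintype.card_fin] at h1 h2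
    exact h1.symm.trans h2
  subst hn
  have hsn : ∀ i, ((S.bN i : Submodule.span ℤ_[2] (Set.range r)) : Fin p → ℤ_[2]) =
      S.a i • S.bM (S.f i) := S.snf
  have ha : ∀ i, S.a i ≠ 0 := by
    intro i h0
    have h1 := hsn i
    rw [h0, zero_smul] at h1
    exact S.bN.ne_zero i (Subtype.ext h1)
  have hk : ∀ i, ∃ k : ℕ, ∃ w : ℤ_[2], w * S.a i = 2 ^ k := by
    intro i
    obtain ⟨k, u, hu⟩ : ∃ (k : ℕ) (u : ℤ_[2]ˣ), S.a i = u * (2 : ℤ_[2]) ^ k := by
      refine ⟨(S.a i).valuation, PadicInt.unitCoeff (ha i), ?_⟩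
      exact_mod_cast PadicInt.unitCoeff_spec (ha i)
    refine ⟨k, ((u⁻¹ : ℤ_[2]ˣ) : ℤ_[2]), ?_⟩
    rw [hu, ← mul_assoc, Units.inv_mul, one_mul]
  choose k w hw using hk
  refine ⟨fun j => S.bM (S.f j), ∑ j, k j, ?_, ?_⟩
  · intro j
    have h1 : (2 : ℤ_[2]) ^ (∑ j, k j) = 2 ^ (∑ i ∈ Finset.univ.erase j, k i) * 2 ^ k j := by
      rw [← pow_add, Finset.sum_erase_add _ _ (Finset.mem_univ j)]
    rw [h1, ← hw j, mul_smul, mul_smul, ← hsn j]
    exact Submodule.smul_mem _ _ (Submodule.smul_mem _ _ (S.bN j).2)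
  · intro c hc
    by_contra hcon
    push Not at hcon
    choose x hx using hcon
    have h1 : (∑ j, ((c j).val : ℤ_[2]) • S.bM (S.f j)) = (2 : ℤ_[2]) • x := by
      funext i
      rw [Finset.sum_apply, Pi.smul_apply, smul_eq_mul, ← hx i]
      rfl
    apply hc
    funext j
    have h2 := congrArg (fun z => S.bM.repr z (S.f j)) h1
    simp only [map_sum, map_smul, Basis.repr_self, Finsupp.coe_finsetSum, Finset.sum_apply,
      Finsupp.smul_apply, smul_eq_mul] at h2
    rw [Finset.sum_eq_single j] at h2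
    · rw [Finsupp.single_eq_same, mul_one] at h2
      have h3 : (c j).val = 0 ∨ (c j).val = 1 := by
        have := ZMod.val_lt (c j)
        omega
      rcases h3 with h3 | h3
      · exact (ZMod.val_eq_zero (c j)).1 h3
      · rw [h3, Nat.cast_one] at h2
        exfalso
        have h4 : IsUnit (2 : ℤ_[2]) := IsUnit.of_mul_eq_one _ h2.symm
        have h5 : Prime ((2 : ℕ) : ℤ_[2]) := PadicInt.prime_p
        exact h5.not_isUnit (by exact_mod_cast h4)
    · intro i _ hij
      rw [Finsupp.single_apply, if_neg (fun h => hij (S.f.injective h)), mul_zero]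
    · intro h
      exact absurd (Finset.mem_univ j) h

end Pool.Agent.Q53.LQ2.LA1
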