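import Pool.Agent.Q283.LQ.Stm

/-!
# Project LQ (helper283): job LA2, the rank of a kernel over `ℤ_2`
-/

set_option autoImplicit false

namespace Pool.Agent.Q53.LQ2.LA2

open Module Pool.Agent.Q283.LQ

theorem exists_indep {n k : ℕ} (V : Submodule ℤ_[2] (Fin n → ℤ_[2])) (h : k ≤ finrank ℤ_[2] V) :
    ∃ b : Fin k → Fin n → ℤ_[2], LinearIndependent ℤ_[2] b ∧ ∀ i, b i ∈ V := by
  have B := finBasis ℤ_[2] V
  have h2 : LinearIndependent ℤ_[2] fun i : Fin k => B (Fin.castLE h i) :=
    B.linearIndependent.comp _ (Fin.castLE_injective h)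
  exact ⟨fun i => (B (Fin.castLE h i) : Fin n → ℤ_[2]), h2.map' V.subtype (Submodule.ker_subtype _),
    fun i => (B (Fin.castLE h i)).2⟩

theorem main : S_LA2 := by
  intro s t n p a ha φ hno
  set V : Submodule ℤ_[2] (Fin n → ℤ_[2]) := Submodule.span ℤ_[2] (Set.range a) with hV
  set ψ : V →ₗ[ℤ_[2]] (Fin p → ℤ_[2]) := φ.domRestrict V with hψ
  have hfV : finrank ℤ_[2] V = s + t := by
    have h2 := finrank_eq_card_basis (Basis.span ha)
    rw [Fintype.card_fin] at h2
    exact h2
  have hrn : finrank ℤ_[2] (LinearMap.range ψ) + finrank ℤ_[2] (LinearMap.ker ψ) =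
      finrank ℤ_[2] V := by
    rw [← Submodule.finrank_quotient_add_finrank (LinearMap.ker ψ)]
    congr 1
    exact (LinearEquiv.finrank_eq ψ.quotKerEquivRange).symm
  have hle : finrank ℤ_[2] (LinearMap.range ψ) ≤ s := by
    by_contra hcon
    push Not at hcon
    apply hno
    obtain ⟨b, hb, hb2⟩ := exists_indep (LinearMap.range ψ) (Nat.succ_le_of_lt hcon)
    choose x hx using hb2
    refine ⟨fun i => x i, fun i => (x i).2, ?_⟩
    have h4 : (fun i => φ (x i)) = b := by
      funext i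
      exact hx i
    rw [h4]
    exact hb
  have hker : t ≤ finrank ℤ_[2] (Submodule.map V.subtype (LinearMap.ker ψ)) := by
    have h1 := LinearEquiv.finrank_eq
      (Submodule.equivMapOfInjective V.subtype V.injective_subtype (LinearMap.ker ψ))
    rw [← h1]
    omega
  obtain ⟨b, hb, hb2⟩ := exists_indep _ hker
  refine ⟨b, hb, fun i => ?_⟩
  obtain ⟨x, hx, hxb⟩ := hb2 i
  rw [← hxb]
  exact ⟨x.2, hx⟩

end Pool.Agent.Q53.LQ2.LA2
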